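import Pool.Agent.P8H71.SK.Stm2

/-!
Part RIG of project SK: rigidity sequences and sections of measurable sets.
-/

set_option autoImplicit false

open MeasureTheory Set Filter Topology
open scoped ENNReal symmDiff

namespace Pool.Agent.P8H55.SK

open Pool.Agent.P8H71.SK

/-- **Part RIG** -/
theorem rig : S_RIG := by
  intro Y X _ _ ν _ m _ T hT n hn S hS
  obtain ⟨φ, hφd⟩ : ∃ φ : ℕ → Y × X → Y × X, φ = fun k p => (T^[n k] p.1, p.2) := ⟨_, rfl⟩
  have hTk : ∀ k, MeasurePreserving (T^[n k]) ν ν := fun k => hT.iterate (n k)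
  have hφ : ∀ k, MeasurePreserving (φ k) (ν.prod m) (ν.prod m) := by
    intro k
    rw [hφd]
    exact (hTk k).prod (MeasurePreserving.id m)
  have key : Tendsto (fun k => (ν.prod m) ((φ k ⁻¹' S) ∆ S)) atTop (𝓝 0) := by
    refine MeasurableSpace.induction_on_inter
      (C := fun S _ => Tendsto (fun k => (ν.prod m) ((φ k ⁻¹' S) ∆ S)) atTop (𝓝 0))
      generateFrom_prod.symm isPiSystem_prod ?_ ?_ ?_ ?_ S hS
    · simp
    · rintro _ ⟨A, hA, B, hB, rfl⟩
      have h1 : Tendsto (fun k => ν (((T^[n k]) ⁻¹' A) ∆ A)) atTop (𝓝 0) := by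
        have := hn A hA
        rw [← ENNReal.toReal_zero] at this
        exact (ENNReal.tendsto_toReal_iff (fun k => measure_ne_top _ _) ENNReal.zero_ne_top).1 this
      refine tendsto_of_tendsto_of_tendsto_of_le_of_le tendsto_const_nhds h1 (fun _ => zero_le)
        (fun k => ?_)
      have hsub : (φ k ⁻¹' (A ×ˢ B)) ∆ (A ×ˢ B) ⊆ (((T^[n k]) ⁻¹' A) ∆ A) ×ˢ univ := by
        rintro ⟨y, x⟩ h
        rw [hφd] at h
        simp only [Set.mem_symmDiff, Set.mem_preimage, Set.mem_prod] at h ⊢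
        tauto
      refine (measure_mono hsub).trans ?_
      rw [Measure.prod_prod, measure_univ, mul_one]
    · intro t ht h
      refine h.congr fun k => ?_
      rw [Set.preimage_compl, compl_symmDiff_compl]
    · intro f hdisj hfm hf
      rw [ENNReal.tendsto_nhds_zero]
      intro ε hε
      have hε3 : 0 < ε / 3 := ENNReal.div_pos hε.ne' (by norm_num)
      have htail := tendsto_measure_biUnion_Ici_zero_of_pairwise_disjoint (μ := ν.prod m)
        (fun i => (hfm i).nullMeasurableSet) hdisj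
      rw [ENNReal.tendsto_nhds_zero] at htail
      obtain ⟨N, hN⟩ := (htail (ε / 3) hε3).exists
      have hsum : Tendsto (fun k => ∑ i ∈ Finset.range N, (ν.prod m) ((φ k ⁻¹' (f i)) ∆ (f i)))
          atTop (𝓝 0) := by
        have := tendsto_finsetSum (Finset.range N) (fun i _ => hf i)
        simpa using this
      rw [ENNReal.tendsto_nhds_zero] at hsum
      filter_upwards [hsum (ε / 3) hε3] with k hk
      obtain ⟨R, hR⟩ : ∃ R : Set (Y × X), R = ⋃ i ≥ N, f i := ⟨_, rfl⟩
      have hRm : MeasurableSet R := by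
        rw [hR]
        exact MeasurableSet.iUnion fun i => MeasurableSet.iUnion fun _ => hfm i
      have hRN : (ν.prod m) R ≤ ε / 3 := by
        rw [hR]
        exact hN
      have hsub : (φ k ⁻¹' (⋃ i, f i)) ∆ (⋃ i, f i) ⊆
          ((⋃ i ∈ Finset.range N, ((φ k ⁻¹' (f i)) ∆ (f i))) ∪ (φ k ⁻¹' R)) ∪ R := by
        intro p hp
        by_contra hcon
        simp only [hR, Set.mem_union, Set.mem_iUnion, Set.mem_preimage, Finset.mem_range,
          Set.mem_symmDiff, not_or, not_exists, not_and, exists_prop, ge_iff_le] at hcon hp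
        obtain ⟨⟨h1, h2⟩, h3⟩ := hcon
        rcases hp with ⟨⟨i, hi⟩, h4⟩ | ⟨⟨i, hi⟩, h4⟩
        · rcases lt_or_ge i N with h5 | h5
          · exact (h1 i h5).1 hi (h4 i)
          · exact h2 i h5 hi
        · rcases lt_or_ge i N with h5 | h5
          · exact (h1 i h5).2 hi (h4 i)
          · exact h3 i h5 hi
      calc (ν.prod m) ((φ k ⁻¹' (⋃ i, f i)) ∆ (⋃ i, f i))
          ≤ (ν.prod m) (((⋃ i ∈ Finset.range N, ((φ k ⁻¹' (f i)) ∆ (f i))) ∪ (φ k ⁻¹' R)) ∪ R) :=
            measure_mono hsub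
        _ ≤ (ν.prod m) ((⋃ i ∈ Finset.range N, ((φ k ⁻¹' (f i)) ∆ (f i))) ∪ (φ k ⁻¹' R)) +
            (ν.prod m) R := measure_union_le _ _
        _ ≤ ((ν.prod m) (⋃ i ∈ Finset.range N, ((φ k ⁻¹' (f i)) ∆ (f i))) +
            (ν.prod m) (φ k ⁻¹' R)) + (ν.prod m) R := by
            gcongr
            exact measure_union_le _ _
        _ ≤ (ε / 3 + ε / 3) + ε / 3 := by
            have e1 : (ν.prod m) (φ k ⁻¹' R) = (ν.prod m) R :=
              (hφ k).measure_preimage hRm.nullMeasurableSet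
            rw [e1]
            gcongr
            exact (measure_biUnion_finset_le _ _).trans hk
        _ = ε := ENNReal.add_thirds ε
  have heq : ∀ k, ∫ y, (m ((Prod.mk (T^[n k] y) ⁻¹' S) ∆ (Prod.mk y ⁻¹' S))).toReal ∂ν =
      ((ν.prod m) ((φ k ⁻¹' S) ∆ S)).toReal := by
    intro k
    have hm : MeasurableSet ((φ k ⁻¹' S) ∆ S) := ((hφ k).measurable hS).symmDiff hS
    rw [Measure.prod_apply hm, ← integral_toReal]
    · rw [hφd]
      rfl
    · exact (measurable_measure_prodMk_left hm).aemeasurable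
    · exact ae_of_all _ fun y => measure_lt_top _ _
  have h2 := (ENNReal.tendsto_toReal ENNReal.zero_ne_top).comp key
  rw [ENNReal.toReal_zero] at h2
  refine h2.congr fun k => ?_
  exact (heq k).symm

end Pool.Agent.P8H55.SK
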